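import Mathlib

set_option autoImplicit false

namespace Pool.Agent.helper14.FTNP

/-! ## Abstract polyhedra (abstract polytopes of rank 3) -/

/-- Two flags differ in exactly one face. -/
def DifferInOneFace {P : Type} [PartialOrder P] (A B : Flag P) : Prop :=
  ((A : Set P) \ (B : Set P)).ncard = 1 ∧ ((B : Set P) \ (A : Set P)).ncard = 1

/-- `IsPolyhedron rk`: the partially ordered set `P`, with rank function `rk`, is an abstract
polytope of rank 3. -/
structure IsPolyhedron {P : Type} [PartialOrder P] (rk : P → ℤ) : Prop where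
  /-- the rank function is strictly monotone ... -/
  strictMono : StrictMono rk
  /-- ... and maps onto `{-1, 0, 1, 2, 3}` -/
  range_eq : Set.range rk = {-1, 0, 1, 2, 3}
  /-- there is a unique least face -/
  least : ∃! x : P, ∀ y, x ≤ y
  /-- there is a unique greatest face -/
  greatest : ∃! x : P, ∀ y, y ≤ x
  /-- every maximal chain has exactly five elements -/
  flag_card : ∀ Φ : Flag P, (Φ : Set P).ncard = 5
  /-- the diamond condition -/
  diamond : ∀ F G : P, F ≤ G → rk G = rk F + 2 →
    {H : P | F ≤ H ∧ H ≤ G ∧ rk H = rk F + 1}.ncard = 2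
  /-- strong flag-connectedness -/
  flagConnected : ∀ Φ Ψ : Flag P,
    Relation.ReflTransGen (fun A B : Flag P => DifferInOneFace A B ∧
      (Φ : Set P) ∩ (Ψ : Set P) ⊆ (A : Set P) ∧ (Φ : Set P) ∩ (Ψ : Set P) ⊆ (B : Set P)) Φ Ψ

/-- The faces of a `p`-gon: the empty face, the vertices `i` and the sides `i` (`i` modulo `p`),
and the polygon itself. -/
inductive PolygonFace (p : ℕ) : Type
  | bot : PolygonFace p
  | vertex (i : ZMod p) : PolygonFace p
  | side (i : ZMod p) : PolygonFace p
  | top : PolygonFace p

/-- Incidence in the `p`-gon: the side `j` joins the vertices `j` and `j + 1`. -/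
def PolygonFace.Le {p : ℕ} : PolygonFace p → PolygonFace p → Prop
  | .bot, _ => True
  | _, .top => True
  | .vertex i, .vertex j => i = j
  | .vertex i, .side j => i = j ∨ i = j + 1
  | .side i, .side j => i = j
  | _, _ => False

/-- The face poset of the `p`-gon. -/
instance {p : ℕ} : PartialOrder (PolygonFace p) where
  le := PolygonFace.Le
  le_refl x := by cases x <;> simp [PolygonFace.Le]
  le_trans x y z := by
    cases x <;> cases y <;> cases z <;> simp +contextual [PolygonFace.Le]
    exact fun h1 h2 => h2 ▸ h1
  le_antisymm x y := by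
    cases x <;> cases y <;> simp +contextual [PolygonFace.Le]

/-- `P` is equivelar of type `{p, q}`: every 2-face is a `p`-gon and every vertex-figure is a
`q`-gon. -/
def IsEquivelar {P : Type} [PartialOrder P] (rk : P → ℤ) (p q : ℕ) : Prop :=
  (∀ F : P, rk F = 2 → Nonempty (Set.Iic F ≃o PolygonFace p)) ∧
  (∀ v : P, rk v = 0 → Nonempty (Set.Ici v ≃o PolygonFace q))

/-- The automorphism group is transitive on the faces of each rank. -/
def IsFullyTransitive {P : Type} [PartialOrder P] (rk : P → ℤ) : Prop :=
  ∀ x y : P, rk x = rk y → ∃ α : P ≃o P, α x = y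

/-- A duality of `P`: an order-reversing bijection. -/
def IsDuality {P : Type} [PartialOrder P] (δ : Equiv.Perm P) : Prop :=
  ∀ F G : P, F ≤ G ↔ δ G ≤ δ F

/-- A polarity of `P`: a duality of period 2. -/
def IsPolarity {P : Type} [PartialOrder P] (δ : Equiv.Perm P) : Prop :=
  IsDuality δ ∧ δ * δ = 1

end Pool.Agent.helper14.FTNP
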