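import Pool.Agent.helper14.FTNP.Defs

set_option autoImplicit false

namespace Pool.Agent.helper14.FTNP

/-! ## The example -/

/-- Entry number `i` of a table of `w`-bit numbers. -/
def tab (T w i : ℕ) : ℕ := (T >>> (w * i)) % 2 ^ w

/-- The faces of the example: 10 vertices, 50 edges, 10 two-faces. -/
inductive Face : Type
  | bot : Face
  | v (i : Fin 10) : Face
  | e (j : Fin 50) : Face
  | f (k : Fin 10) : Face
  | top : Face
  deriving DecidableEq, Fintype

/-- The two vertices of the edge `j`. -/
def vt (j : Fin 50) (b : Bool) : Fin 10 :=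
  Fin.ofNat 10 (tab 227049502816167234545375642889546946931847535158957961294223123548380077002982579363184628781518690756177484044531933200 4 (2 * j.val + b.toNat))

/-- The two 2-faces of the edge `j`. -/
def ft (j : Fin 50) (b : Bool) : Fin 10 :=
  Fin.ofNat 10 (tab 353872535854777223626724765377393776481204018172183111642349724990924064696955905805336271275108350097974609381625503760 4 (2 * j.val + b.toNat))

/-- The order of the example. -/
def Face.Le : Face → Face → Prop
  | .bot, _ => True
  | _, .top => True
  | .v i, .v j => i = j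
  | .v i, .e j => i = vt j false ∨ i = vt j true
  | .v _, .f _ => True
  | .e i, .e j => i = j
  | .e j, .f k => k = ft j false ∨ k = ft j true
  | .f i, .f j => i = j
  | _, _ => False

instance : PartialOrder Face where
  le := Face.Le
  le_refl x := by cases x <;> simp [Face.Le]
  le_trans x y z := by
    cases x <;> cases y <;> cases z <;> simp +contextual [Face.Le] <;>
      (intro h1 h2; subst h2; exact h1)
  le_antisymm x y := by
    cases x <;> cases y <;> simp +contextual [Face.Le]

theorem le_def (x y : Face) : x ≤ y ↔ Face.Le x y := Iff.rfl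

@[simp] theorem bot_le' (x : Face) : Face.bot ≤ x := by cases x <;> trivial
@[simp] theorem le_top' (x : Face) : x ≤ Face.top := by cases x <;> trivial
@[simp] theorem vv (i j : Fin 10) : Face.v i ≤ Face.v j ↔ i = j := Iff.rfl
@[simp] theorem ve (i : Fin 10) (j : Fin 50) :
    Face.v i ≤ Face.e j ↔ (i = vt j false ∨ i = vt j true) := Iff.rfl
@[simp] theorem vf (i k : Fin 10) : Face.v i ≤ Face.f k := trivial
@[simp] theorem ee (i j : Fin 50) : Face.e i ≤ Face.e j ↔ i = j := Iff.rfl
@[simp] theorem ef (j : Fin 50) (k : Fin 10) :
    Face.e j ≤ Face.f k ↔ (k = ft j false ∨ k = ft j true) := Iff.rfl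
@[simp] theorem ff (i j : Fin 10) : Face.f i ≤ Face.f j ↔ i = j := Iff.rfl
@[simp] theorem v_bot (i : Fin 10) : ¬ Face.v i ≤ Face.bot := fun h => h
@[simp] theorem e_bot (i : Fin 50) : ¬ Face.e i ≤ Face.bot := fun h => h
@[simp] theorem f_bot (i : Fin 10) : ¬ Face.f i ≤ Face.bot := fun h => h
@[simp] theorem top_bot : ¬ Face.top ≤ Face.bot := fun h => h
@[simp] theorem top_v (i : Fin 10) : ¬ Face.top ≤ Face.v i := fun h => h
@[simp] theorem top_e (i : Fin 50) : ¬ Face.top ≤ Face.e i := fun h => h
@[simp] theorem top_f (i : Fin 10) : ¬ Face.top ≤ Face.f i := fun h => h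
@[simp] theorem ev (i : Fin 50) (j : Fin 10) : ¬ Face.e i ≤ Face.v j := fun h => h
@[simp] theorem fv (i : Fin 10) (j : Fin 10) : ¬ Face.f i ≤ Face.v j := fun h => h
@[simp] theorem fe (i : Fin 10) (j : Fin 50) : ¬ Face.f i ≤ Face.e j := fun h => h

instance : OrderBot Face where
  bot := Face.bot
  bot_le := bot_le'

instance : OrderTop Face where
  top := Face.top
  le_top := le_top'

/-- The rank function. -/
def rk : Face → ℤ
  | .bot => -1
  | .v _ => 0
  | .e _ => 1
  | .f _ => 2
  | .top => 3

theorem rk_strictMono : StrictMono rk := by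
  intro x y h
  have h1 : x ≤ y := h.le
  have h2 : x ≠ y := h.ne
  cases x <;> cases y <;> simp_all [rk]

/-! ### Flags of the example -/

/-- The flags, numbered `0, ..., 199`; flag number `4 * j + 2 * c + b` lies on the edge `j`. -/
abbrev Fl := Fin 200

def E (x : Fl) : Fin 50 := Fin.ofNat 50 (x.val / 4)
def V (x : Fl) : Fin 10 := vt (E x) (x.val % 2 == 1)
def F (x : Fl) : Fin 10 := ft (E x) ((x.val / 2) % 2 == 1)

/-- The 0-adjacent flag. -/
def r0 (x : Fl) : Fl := Fin.ofNat 200 (bif x.val % 2 == 0 then x.val + 1 else x.val - 1)
/-- The 2-adjacent flag. -/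
def r2 (x : Fl) : Fl := Fin.ofNat 200 (bif (x.val / 2) % 2 == 0 then x.val + 2 else x.val - 2)
/-- The 1-adjacent flag. -/
def r1 (x : Fl) : Fl := Fin.ofNat 200 (tab 31041139668864254585022225393709239348380354817491084475065513891712059551636846744348988105108484586013038452076419119839150968854221948513278495786858543402099416111461740540527848791240096219684209843308730353020081775968997466886595659844941300014107329320062147120962811412890679551103380436645761928854479941767889626946819273742306938196029722153305983110156890386878988858619156018423406211355235419402382593561404590753100809133048727636692251265139007508173324880487914500 8 x.val)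

theorem adj0 : ∀ x : Fl, V (r0 x) ≠ V x ∧ E (r0 x) = E x ∧ F (r0 x) = F x ∧ r0 (r0 x) = x := by
  decide +kernel
theorem adj1 : ∀ x : Fl, V (r1 x) = V x ∧ E (r1 x) ≠ E x ∧ F (r1 x) = F x ∧ r1 (r1 x) = x := by
  decide +kernel
theorem adj2 : ∀ x : Fl, V (r2 x) = V x ∧ E (r2 x) = E x ∧ F (r2 x) ≠ F x ∧ r2 (r2 x) = x := by
  decide +kernel

theorem ex_flag : ∀ (j : Fin 50) (b c : Bool), ∃ x : Fl, V x = vt j b ∧ E x = j ∧ F x = ft j c := by
  intro j b c
  have key : ∀ (j : Fin 50) (b c : Bool),
      V (Fin.ofNat 200 (4 * j.val + 2 * c.toNat + b.toNat)) = vt j b ∧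
      E (Fin.ofNat 200 (4 * j.val + 2 * c.toNat + b.toNat)) = j ∧
      F (Fin.ofNat 200 (4 * j.val + 2 * c.toNat + b.toNat)) = ft j c := by decide +kernel
  exact ⟨_, key j b c⟩

theorem vt_ne : ∀ j : Fin 50, vt j false ≠ vt j true := by decide +kernel
theorem ft_ne : ∀ j : Fin 50, ft j false ≠ ft j true := by decide +kernel

theorem V_inc (x : Fl) : Face.v (V x) ≤ Face.e (E x) := by
  unfold V
  cases h : (x.val % 2 == 1) <;> simp

theorem F_inc (x : Fl) : Face.e (E x) ≤ Face.f (F x) := by
  unfold F
  cases h : ((x.val / 2) % 2 == 1) <;> simp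

theorem flag_inj (x y : Fl) (h0 : V x = V y) (h1 : E x = E y) (h2 : F x = F y) : x = y := by
  have e1 : x.val / 4 = y.val / 4 := by
    have := congrArg Fin.val h1
    simp only [E, Fin.ofNat] at this
    have hx := x.isLt
    have hy := y.isLt
    omega
  have hb : (x.val % 2 == 1) = (y.val % 2 == 1) := by
    unfold V at h0
    rw [h1] at h0
    by_contra hne
    cases hx : (x.val % 2 == 1) <;> cases hy : (y.val % 2 == 1) <;> rw [hx, hy] at hne h0
    · exact hne rfl
    · exact vt_ne _ h0
    · exact vt_ne _ h0.symm
    · exact hne rfl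
  have hc : ((x.val / 2) % 2 == 1) = ((y.val / 2) % 2 == 1) := by
    unfold F at h2
    rw [h1] at h2
    by_contra hne
    cases hx : ((x.val / 2) % 2 == 1) <;> cases hy : ((y.val / 2) % 2 == 1) <;> rw [hx, hy] at hne h2
    · exact hne rfl
    · exact ft_ne _ h2
    · exact ft_ne _ h2.symm
    · exact hne rfl
  have hb' : (x.val % 2 = 1) ↔ (y.val % 2 = 1) := by
    rw [Bool.eq_iff_iff] at hb; simpa using hb
  have hc' : ((x.val / 2) % 2 = 1) ↔ ((y.val / 2) % 2 = 1) := by
    rw [Bool.eq_iff_iff] at hc; simpa using hc
  apply Fin.ext
  omega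

/-- The two edges between the vertex `i` and the 2-face `k`. -/
def e1 (i k : Fin 10) : Fin 50 := Fin.ofNat 50 (tab 2046765016515511889785794269264639949252445986767262572725753137339143389775644423936321260410414180890127019408496838832811214323273921116539373482778590916582175247309216479186944 6 (10 * i.val + k.val))
def e2 (i k : Fin 10) : Fin 50 := Fin.ofNat 50 (tab 2828899445019677081015364579036704508882121048079530049337270082454931247614956101208704666611073338755452975218498741621329540389888606247054489936894217958074833177297359097049217 6 (10 * i.val + k.val))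

theorem dia1 : ∀ i k : Fin 10, e1 i k ≠ e2 i k := by decide +kernel

theorem dia2 : ∀ (i k : Fin 10) (j : Fin 50),
    ((i = vt j false ∨ i = vt j true) ∧ (k = ft j false ∨ k = ft j true)) ↔
      (j = e1 i k ∨ j = e2 i k) := by decide +kernel

/-- The chain of faces of the flag `x`. -/
def cset (x : Fl) : Set Face := {Face.bot, Face.v (V x), Face.e (E x), Face.f (F x), Face.top}

theorem mem_cset (x : Fl) (a : Face) : a ∈ cset x ↔
    (a = Face.bot ∨ a = Face.v (V x) ∨ a = Face.e (E x) ∨ a = Face.f (F x) ∨ a = Face.top) := by
  simp [cset]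

theorem cset_chain (x : Fl) : IsChain (· ≤ ·) (cset x) := by
  have h1 := V_inc x
  have h2 := F_inc x
  intro a ha b hb _
  rw [mem_cset] at ha hb
  rcases ha with rfl | rfl | rfl | rfl | rfl <;> rcases hb with rfl | rfl | rfl | rfl | rfl <;>
    first
      | exact Or.inl (bot_le' _)
      | exact Or.inr (bot_le' _)
      | exact Or.inl (le_top' _)
      | exact Or.inr (le_top' _)
      | exact Or.inl le_rfl
      | exact Or.inl h1
      | exact Or.inr h1
      | exact Or.inl h2
      | exact Or.inr h2
      | exact Or.inl (vf _ _)
      | exact Or.inr (vf _ _)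

theorem cset_max (x : Fl) (a : Face) (h : ∀ b ∈ cset x, a ≤ b ∨ b ≤ a) : a ∈ cset x := by
  rw [mem_cset]
  cases a with
  | bot => simp
  | top => simp
  | v i =>
    have := h (Face.v (V x)) (by simp [mem_cset])
    right; left
    rcases this with h' | h' <;> simp at h' <;> simp [h']
  | e i =>
    have := h (Face.e (E x)) (by simp [mem_cset])
    right; right; left
    rcases this with h' | h' <;> simp at h' <;> simp [h']
  | f i =>
    have := h (Face.f (F x)) (by simp [mem_cset])
    right; right; right; left
    rcases this with h' | h' <;> simp at h' <;> simp [h']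

/-- The flag with number `x`. -/
def mk (x : Fl) : Flag Face where
  carrier := cset x
  Chain' := cset_chain x
  max_chain' := by
    intro s hs hsub
    apply Set.Subset.antisymm hsub
    intro a ha
    apply cset_max
    intro b hb
    exact hs.total ha (hsub hb)

@[simp] theorem coe_mk (x : Fl) : ((mk x : Flag Face) : Set Face) = cset x := rfl

theorem exists_mk (Φ : Flag Face) : ∃ x : Fl, Φ = mk x := by
  have hbot : Face.bot ∈ Φ := Flag.bot_mem Φ
  have htop : Face.top ∈ Φ := Flag.top_mem Φ
  -- an edge in the flag
  obtain ⟨j, hj⟩ : ∃ j, Face.e j ∈ Φ := by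
    by_contra hno
    push Not at hno
    by_cases hv : ∃ i, Face.v i ∈ Φ
    · obtain ⟨i, hi⟩ := hv
      have hv' : ∀ i', Face.v i' ∈ Φ → i' = i := by
        intro i' hi'
        rcases Φ.le_or_le hi' hi with h | h <;> simp at h <;> simp [h]
      by_cases hf : ∃ k, Face.f k ∈ Φ
      · obtain ⟨k, hk⟩ := hf
        have hf' : ∀ i', Face.f i' ∈ Φ → i' = k := by
          intro i' hi'
          rcases Φ.le_or_le hi' hk with h | h <;> simp at h <;> simp [h]
        have hd := (dia2 i k (e1 i k)).2 (Or.inl rfl)
        apply hno (e1 i k)
        rw [Flag.mem_iff_forall_le_or_ge]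
        intro b hb
        cases b with
        | bot => simp
        | top => simp
        | v i' => right; rw [hv' i' hb]; exact hd.1
        | e i' => exact absurd hb (hno i')
        | f i' => left; rw [hf' i' hb]; exact hd.2
      · push Not at hf
        have hd := (dia2 i 0 (e1 i 0)).2 (Or.inl rfl)
        apply hno (e1 i 0)
        rw [Flag.mem_iff_forall_le_or_ge]
        intro b hb
        cases b with
        | bot => simp
        | top => simp
        | v i' => right; rw [hv' i' hb]; exact hd.1
        | e i' => exact absurd hb (hno i')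
        | f i' => exact absurd hb (hf i')
    · push Not at hv
      by_cases hf : ∃ k, Face.f k ∈ Φ
      · obtain ⟨k, hk⟩ := hf
        have hf' : ∀ i', Face.f i' ∈ Φ → i' = k := by
          intro i' hi'
          rcases Φ.le_or_le hi' hk with h | h <;> simp at h <;> simp [h]
        have hd := (dia2 0 k (e1 0 k)).2 (Or.inl rfl)
        apply hno (e1 0 k)
        rw [Flag.mem_iff_forall_le_or_ge]
        intro b hb
        cases b with
        | bot => simp
        | top => simp
        | v i' => exact absurd hb (hv i')
        | e i' => exact absurd hb (hno i')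
        | f i' => left; rw [hf' i' hb]; exact hd.2
      · push Not at hf
        apply hno 0
        rw [Flag.mem_iff_forall_le_or_ge]
        intro b hb
        cases b with
        | bot => simp
        | top => simp
        | v i' => exact absurd hb (hv i')
        | e i' => exact absurd hb (hno i')
        | f i' => exact absurd hb (hf i')
  have he' : ∀ i', Face.e i' ∈ Φ → i' = j := by
    intro i' hi'
    rcases Φ.le_or_le hi' hj with h | h <;> simp at h <;> simp [h]
  -- a vertex in the flag
  obtain ⟨b, hb⟩ : ∃ b, Face.v (vt j b) ∈ Φ := by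
    by_cases hv : ∃ i, Face.v i ∈ Φ
    · obtain ⟨i, hi⟩ := hv
      rcases Φ.le_or_le hi hj with h | h
      · rw [ve] at h
        rcases h with h | h
        · exact ⟨false, h ▸ hi⟩
        · exact ⟨true, h ▸ hi⟩
      · simp at h
    · push Not at hv
      refine ⟨false, ?_⟩
      rw [Flag.mem_iff_forall_le_or_ge]
      intro b hb
      cases b with
      | bot => simp
      | top => simp
      | v i' => exact absurd hb (hv i')
      | e i' => left; rw [he' i' hb]; simp
      | f i' => left; simp
  obtain ⟨c, hc⟩ : ∃ c, Face.f (ft j c) ∈ Φ := by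
    by_cases hv : ∃ i, Face.f i ∈ Φ
    · obtain ⟨i, hi⟩ := hv
      rcases Φ.le_or_le hi hj with h | h
      · simp at h
      · rw [ef] at h
        rcases h with h | h
        · exact ⟨false, h ▸ hi⟩
        · exact ⟨true, h ▸ hi⟩
    · push Not at hv
      refine ⟨false, ?_⟩
      rw [Flag.mem_iff_forall_le_or_ge]
      intro b hb
      cases b with
      | bot => simp
      | top => simp
      | v i' => right; simp
      | e i' => right; rw [he' i' hb]; simp
      | f i' => exact absurd hb (hv i')
  obtain ⟨x, hx0, hx1, hx2⟩ := ex_flag j b c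
  refine ⟨x, ?_⟩
  have hsub : ((mk x : Flag Face) : Set Face) ⊆ (Φ : Set Face) := by
    intro a ha
    rw [coe_mk, mem_cset, hx0, hx1, hx2] at ha
    rcases ha with rfl | rfl | rfl | rfl | rfl
    · exact hbot
    · exact hb
    · exact hj
    · exact hc
    · exact htop
  have := (mk x).max_chain' Φ.chain_le hsub
  exact (SetLike.coe_injective this).symm

theorem cset_ncard (x : Fl) : (cset x).ncard = 5 := by
  have : cset x = ((({Face.bot, Face.v (V x), Face.e (E x), Face.f (F x), Face.top} :
      Finset Face)) : Set Face) := by
    ext a; simp [cset]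
  rw [this, Set.ncard_coe_finset]
  rfl

/-! ### Strong flag-connectedness -/

/-- Walking in the flag graph: the base-4 digits of `w` say which step to take (digit 3 stops). -/
def step (a b c : Fl → Fl) (k : ℕ) (x : Fl) : Fl :=
  bif k == 0 then a x else bif k == 1 then b x else c x

def run (a b c : Fl → Fl) : ℕ → ℕ → Fl → Fl
  | 0, _, x => x
  | n + 1, w, x => bif w % 4 == 3 then x else run a b c n (w / 4) (step a b c (w % 4) x)

/-- The code of a walk from flag `0` to flag `y`. -/
def word (y : Fl) : ℕ := tab 2027526590366246051531412426496099132317795941717647683866477658061063363250818002957152653758666205471507952544872156126601525876799837352795354114659639166102333346197786634143797306168016537532580005708594352691954207456607630481078005343180340656813651625839583251726666719817710913495672511196539315782439967769896106046746333467260241785413781383910191790623436732362805091646087638366612864420097630541097791369636109835840561695684440990790874084270071847239303555860521094521089277241651576301522262580409602860109187651519460364622327546223212180641686100303834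34052615447514933195449709402813754952335807063386612418077456846637757620813095599413081985012515680598897121217049527809319164963993889586884802875593041696418085683926927679712299918783266664621876905319880485543934206354390088078095308336066240868832509139922750597769768379124642604546379515125057532522407724846151259742495301968271414131764438294402270649938682255006510749568142211080695247253517377047416390377889703549782002478831150403893941102336774657107525810013532191710072938013254988312877207324065802869210618876724426365845742507898408200794043702432377670017496804720794083031440633728688305879676626856674497511657851494902058728347808432122298030383769548883595408076575362964075745573162601623766767734632966944077594895394392188547135105688893183856481881245457700951393037757473479836416150776497665967184044872632059404941895382799417026330830827735013357065222918318440343206944960245417104939559855122041717417572536651927102442855967350152009852867567860583993030494106470517063194531432800885433747584259827108102656722321962327343001736240865735883523048238110082757606414519225540733529722275906472799129021012232453637520065221201259961417358419601562080950018942101894252583080600881734526399191894779961651299299851100209680344844280298287853790392172506804534172083225252226374917314755305545178748056868559982265412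 32 y.val

theorem word_spec : ∀ y : Fl, run r0 r1 r2 16 (word y) 0 = y ∧ run r2 r1 r0 16 (word y) y ≠ 0 := by
  decide +kernel

/-- Walking around a vertex or a face. -/
def alt (a b : Fl → Fl) : ℕ → Fl → Fl
  | 0, x => x
  | n + 1, x => alt b a n (a x)

def posV (x : Fl) : ℕ := tab 2409377854496143530718243330927412160454757231962962882439626350994311012108215976465068949302214932126898952650111382376372901572789468008921996016992316532339455037102849124230857313819404890030802426950196975912629921788925041112141355961987487526637694092374244300657525371791970051780465087073280 5 x.val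
def posF (x : Fl) : ℕ := tab 3444656018428919348376982724207639562834065017789154385275068583857526729381180295380493350343656992420193668421763815344792793967923468085185519064873085390166185881655634806827496482971624403501457117254469951145481851089296398540121666466070989291826063159737875951804553663267992730490288547136096 5 x.val
def baseV (i : Fin 10) : Fl := Fin.ofNat 200 (tab 420974667897122482094336 8 i.val)
def baseF (i : Fin 10) : Fl := Fin.ofNat 200 (tab 236895255330319327691264 8 i.val)

theorem altV_spec : ∀ x : Fl, alt r1 r2 (posV x) (baseV (V x)) = x := by decide +kernel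
theorem altF_spec : ∀ x : Fl, alt r1 r0 (posF x) (baseF (F x)) = x := by decide +kernel

/-- The flag `z` contains all faces common to the flags `x` and `y`. -/
def Good (x y z : Fl) : Prop :=
  (V x = V y → V z = V x) ∧ (E x = E y → E z = E x) ∧ (F x = F y → F z = F x)

def Adj (a b : Fl) : Prop := b = r0 a ∨ b = r1 a ∨ b = r2 a

theorem Adj.symm {a b : Fl} (h : Adj a b) : Adj b a := by
  rcases h with rfl | rfl | rfl
  · exact Or.inl (adj0 a).2.2.2.symm
  · exact Or.inr (Or.inl (adj1 a).2.2.2.symm)
  · exact Or.inr (Or.inr (adj2 a).2.2.2.symm)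

def PathRel (x y a b : Fl) : Prop := Adj a b ∧ Good x y a ∧ Good x y b

theorem PathRel.symm {x y a b : Fl} (h : PathRel x y a b) : PathRel x y b a :=
  ⟨h.1.symm, h.2.2, h.2.1⟩

theorem path_symm {x y a b : Fl} (h : Relation.ReflTransGen (PathRel x y) a b) :
    Relation.ReflTransGen (PathRel x y) b a := by
  induction h with
  | refl => exact .refl
  | tail _ h ih => exact .head h.symm ih

theorem alt_path (x y : Fl) (p q : Fl → Fl) (hp : ∀ z, Adj z (p z)) (hq : ∀ z, Adj z (q z))
    (gp : ∀ z, Good x y z → Good x y (p z)) (gq : ∀ z, Good x y z → Good x y (q z)) (n : ℕ) :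
    ∀ (z : Fl), Good x y z →
      Relation.ReflTransGen (PathRel x y) z (alt p q n z) := by
  induction n generalizing p q with
  | zero => intro z _; exact .refl
  | succ n ih =>
    intro z hz
    exact .head ⟨hp z, hz, gp z hz⟩ (ih q p hq hp gq gp (p z) (gp z hz))

theorem run_path (x y : Fl) (g : ∀ z, Good x y z) (n : ℕ) :
    ∀ (w : ℕ) (z : Fl), Relation.ReflTransGen (PathRel x y) z (run r0 r1 r2 n w z) := by
  induction n with
  | zero => intro _ z; exact .refl
  | succ n ih =>
    intro w z
    simp only [run]
    cases hw : (w % 4 == 3)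
    · simp only [cond_false]
      refine .head ⟨?_, g _, g _⟩ (ih (w / 4) _)
      unfold step
      cases (w % 4 == 0)
      · cases (w % 4 == 1)
        · exact Or.inr (Or.inr rfl)
        · exact Or.inr (Or.inl rfl)
      · exact Or.inl rfl
    · simp only [cond_true]; exact .refl

theorem same_VF (x y : Fl) (h0 : V x = V y) (h2 : F x = F y) : x = y ∨ y = r1 x := by
  have hx := (dia2 (V x) (F x) (E x)).1 ⟨V_inc x, F_inc x⟩
  have hy := (dia2 (V x) (F x) (E y)).1 (by rw [h0, h2]; exact ⟨V_inc y, F_inc y⟩)
  obtain ⟨a1, a2, a3, -⟩ := adj1 x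
  have hr := (dia2 (V x) (F x) (E (r1 x))).1
    (by have := V_inc (r1 x); have h' := F_inc (r1 x); rw [a1] at this; rw [a3] at h'
        exact ⟨this, h'⟩)
  by_cases h : E x = E y
  · left; exact flag_inj x y h0 h h2
  · right
    apply flag_inj y (r1 x) (h0 ▸ a1.symm) _ (h2 ▸ a3.symm)
    rcases hx with hx | hx <;> rcases hy with hy | hy <;> rcases hr with hr | hr
    · exact absurd (hx.trans hy.symm) h
    · exact absurd (hx.trans hy.symm) h
    · exact absurd (hr.trans hx.symm) a2
    · exact hy.trans hr.symm
    · exact hy.trans hr.symm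
    · exact absurd (hr.trans hx.symm) a2
    · exact absurd (hx.trans hy.symm) h
    · exact absurd (hx.trans hy.symm) h

theorem vt_cases (j : Fin 50) (p q r : Fl) (hp : E p = j) (hq : E q = j) (hr : E r = j)
    (h1 : V p ≠ V q) (h2 : V r ≠ V q) : V p = V r := by
  have a := V_inc p; have b := V_inc q; have c := V_inc r
  rw [hp, ve] at a; rw [hq, ve] at b; rw [hr, ve] at c
  rcases a with a | a <;> rcases b with b | b <;> rcases c with c | c <;> rw [a, b] at h1 <;>
    rw [b, c] at h2 <;> simp_all

theorem ft_cases (j : Fin 50) (p q r : Fl) (hp : E p = j) (hq : E q = j) (hr : E r = j)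
    (h1 : F p ≠ F q) (h2 : F r ≠ F q) : F p = F r := by
  have a := F_inc p; have b := F_inc q; have c := F_inc r
  rw [hp, ef] at a; rw [hq, ef] at b; rw [hr, ef] at c
  rcases a with a | a <;> rcases b with b | b <;> rcases c with c | c <;> rw [a, b] at h1 <;>
    rw [b, c] at h2 <;> simp_all

theorem same_E (x y : Fl) (h : E x = E y) : (V x = V y → F x ≠ F y → y = r2 x) ∧
    (V x ≠ V y → F x = F y → y = r0 x) ∧ (V x ≠ V y → F x ≠ F y → y = r0 (r2 x)) := by
  obtain ⟨a1, a2, a3, -⟩ := adj2 x
  obtain ⟨b1, b2, b3, -⟩ := adj0 x
  obtain ⟨c1, c2, c3, -⟩ := adj0 (r2 x)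
  refine ⟨fun h0 h2 => ?_, fun h0 h2 => ?_, fun h0 h2 => ?_⟩
  · refine flag_inj y (r2 x) (h0 ▸ a1.symm) (h ▸ a2.symm) ?_
    exact ft_cases (E x) y x (r2 x) h.symm rfl a2 (Ne.symm h2) a3
  · refine flag_inj y (r0 x) ?_ (h ▸ b2.symm) (h2 ▸ b3.symm)
    exact vt_cases (E x) y x (r0 x) h.symm rfl b2 (Ne.symm h0) b1
  · refine flag_inj y (r0 (r2 x)) ?_ (by rw [c2, a2, h]) ?_
    · refine vt_cases (E x) y x (r0 (r2 x)) h.symm rfl (by rw [c2, a2]) (Ne.symm h0) ?_
      rw [a1] at c1; exact c1
    · rw [c3]
      exact ft_cases (E x) y x (r2 x) h.symm rfl a2 (Ne.symm h2) a3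

theorem good_left (x y : Fl) : Good x y x := ⟨fun _ => rfl, fun _ => rfl, fun _ => rfl⟩
theorem good_right (x y : Fl) : Good x y y :=
  ⟨fun h => h.symm, fun h => h.symm, fun h => h.symm⟩

theorem base_good_V (x y : Fl) (_ : V x = V y) (h1 : E x ≠ E y) (h2 : F x ≠ F y) (z : Fl)
    (hz : V z = V x) : Good x y z := ⟨fun _ => hz, fun h => absurd h h1, fun h => absurd h h2⟩

theorem altV_V (n : ℕ) : ∀ (p q : Fl → Fl) (_ : ∀ z, V (p z) = V z) (_ : ∀ z, V (q z) = V z)
    (z : Fl), V (alt p q n z) = V z := by
  induction n with
  | zero => intro _ _ _ _ z; rfl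
  | succ n ih => intro p q hp hq z; simp only [alt]; rw [ih q p hq hp, hp]

theorem altF_F (n : ℕ) : ∀ (p q : Fl → Fl) (_ : ∀ z, F (p z) = F z) (_ : ∀ z, F (q z) = F z)
    (z : Fl), F (alt p q n z) = F z := by
  induction n with
  | zero => intro _ _ _ _ z; rfl
  | succ n ih => intro p q hp hq z; simp only [alt]; rw [ih q p hq hp, hp]

theorem V_baseV (x : Fl) : V (baseV (V x)) = V x := by
  have h := congrArg V (altV_spec x)
  rwa [altV_V _ r1 r2 (fun z => (adj1 z).1) (fun z => (adj2 z).1)] at h

theorem F_baseF (x : Fl) : F (baseF (F x)) = F x := by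
  have h := congrArg F (altF_spec x)
  rwa [altF_F _ r1 r0 (fun z => (adj1 z).2.2.1) (fun z => (adj0 z).2.2.1)] at h

theorem path (x y : Fl) : Relation.ReflTransGen (PathRel x y) x y := by
  by_cases h1 : E x = E y
  · obtain ⟨s1, s2, s3⟩ := same_E x y h1
    by_cases h0 : V x = V y
    · by_cases h2 : F x = F y
      · rw [← flag_inj x y h0 h1 h2]
      · exact .single ⟨Or.inr (Or.inr (s1 h0 h2)), good_left x y, good_right x y⟩
    · by_cases h2 : F x = F y
      · exact .single ⟨Or.inl (s2 h0 h2), good_left x y, good_right x y⟩
      · have g : Good x y (r2 x) :=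
          ⟨fun h => absurd h h0, fun _ => (adj2 x).2.1, fun h => absurd h h2⟩
        exact .head ⟨Or.inr (Or.inr rfl), good_left x y, g⟩
          (.single ⟨Or.inl (s3 h0 h2), g, good_right x y⟩)
  · by_cases h0 : V x = V y
    · by_cases h2 : F x = F y
      · rcases same_VF x y h0 h2 with h | h
        · exact absurd (congrArg E h) h1
        · exact .single ⟨Or.inr (Or.inl h), good_left x y, good_right x y⟩
      · have key : ∀ z : Fl, V z = V x → Relation.ReflTransGen (PathRel x y) (baseV (V x)) z := by
          intro z hz
          have := alt_path x y r1 r2 (fun z => Or.inr (Or.inl rfl)) (fun z => Or.inr (Or.inr rfl))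
            (fun z hz => base_good_V x y h0 h1 h2 _ ((adj1 z).1.trans (hz.1 h0)))
            (fun z hz => base_good_V x y h0 h1 h2 _ ((adj2 z).1.trans (hz.1 h0)))
            (posV z) (baseV (V z)) (base_good_V x y h0 h1 h2 _ ((V_baseV z).trans hz))
          rw [altV_spec z, hz] at this
          exact this
        exact (path_symm (key x rfl)).trans (key y h0.symm)
    · by_cases h2 : F x = F y
      · have bg : ∀ z, F z = F x → Good x y z :=
          fun z hz => ⟨fun h => absurd h h0, fun h => absurd h h1, fun _ => hz⟩
        have key : ∀ z : Fl, F z = F x → Relation.ReflTransGen (PathRel x y) (baseF (F x)) z := by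
          intro z hz
          have := alt_path x y r1 r0 (fun z => Or.inr (Or.inl rfl)) (fun z => Or.inl rfl)
            (fun z hz => bg _ ((adj1 z).2.2.1.trans (hz.2.2 h2)))
            (fun z hz => bg _ ((adj0 z).2.2.1.trans (hz.2.2 h2)))
            (posF z) (baseF (F z)) (bg _ ((F_baseF z).trans hz))
          rw [altF_spec z, hz] at this
          exact this
        exact (path_symm (key x rfl)).trans (key y h2.symm)
      · have g : ∀ z, Good x y z :=
          fun z => ⟨fun h => absurd h h0, fun h => absurd h h1, fun h => absurd h h2⟩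
        have key : ∀ z : Fl, Relation.ReflTransGen (PathRel x y) 0 z := by
          intro z
          have := run_path x y g 16 (word z) 0
          rwa [(word_spec z).1] at this
        exact (path_symm (key x)).trans (key y)

theorem good_sub {x y z : Fl} (h : Good x y z) : cset x ∩ cset y ⊆ cset z := by
  rintro a ⟨ha, hb⟩
  rw [mem_cset] at ha hb ⊢
  rcases ha with rfl | rfl | rfl | rfl | rfl
  · simp
  · simp at hb; simp [h.1 hb]
  · simp at hb; simp [h.2.1 hb]
  · simp at hb; simp [h.2.2 hb]
  · simp

theorem adj_differ {a b : Fl} (h : Adj a b) : DifferInOneFace (mk a) (mk b) := by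
  have key : ∀ a b : Fl, Adj a b → ((cset a) \ (cset b)).ncard = 1 := by
    intro a b h
    rw [Set.ncard_eq_one]
    rcases h with rfl | rfl | rfl
    · obtain ⟨h1, h2, h3, -⟩ := adj0 a
      refine ⟨Face.v (V a), ?_⟩
      ext z
      simp only [Set.mem_sdiff, mem_cset, Set.mem_singleton_iff, h2, h3]
      constructor
      · rintro ⟨rfl | rfl | rfl | rfl | rfl, h'⟩ <;> simp_all
      · rintro rfl
        simp [Ne.symm h1]
    · obtain ⟨h1, h2, h3, -⟩ := adj1 a
      refine ⟨Face.e (E a), ?_⟩
      ext z
      simp only [Set.mem_sdiff, mem_cset, Set.mem_singleton_iff, h1, h3]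
      constructor
      · rintro ⟨rfl | rfl | rfl | rfl | rfl, h'⟩ <;> simp_all
      · rintro rfl
        simp [Ne.symm h2]
    · obtain ⟨h1, h2, h3, -⟩ := adj2 a
      refine ⟨Face.f (F a), ?_⟩
      ext z
      simp only [Set.mem_sdiff, mem_cset, Set.mem_singleton_iff, h1, h2]
      constructor
      · rintro ⟨rfl | rfl | rfl | rfl | rfl, h'⟩ <;> simp_all
      · rintro rfl
        simp [Ne.symm h3]
  exact ⟨key a b h, key b a h.symm⟩

/-! ### The example is a polyhedron -/

theorem example_polyhedron : IsPolyhedron rk where
  strictMono := rk_strictMono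
  range_eq := by
    ext z
    simp only [Set.mem_range, Set.mem_insert_iff, Set.mem_singleton_iff]
    constructor
    · rintro ⟨x, rfl⟩
      cases x <;> simp [rk]
    · rintro (rfl | rfl | rfl | rfl | rfl)
      · exact ⟨Face.bot, rfl⟩
      · exact ⟨Face.v 0, rfl⟩
      · exact ⟨Face.e 0, rfl⟩
      · exact ⟨Face.f 0, rfl⟩
      · exact ⟨Face.top, rfl⟩
  least := ⟨Face.bot, bot_le', fun y hy => le_antisymm (hy _) (bot_le' _)⟩
  greatest := ⟨Face.top, le_top', fun y hy => le_antisymm (le_top' _) (hy _)⟩
  flag_card := by
    intro Φ
    obtain ⟨x, rfl⟩ := exists_mk Φ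
    exact cset_ncard x
  diamond := by
    intro A B hAB hrk
    rw [Set.ncard_eq_two]
    cases A with
    | bot =>
      cases B with
      | e j =>
        refine ⟨Face.v (vt j false), Face.v (vt j true), by simp [vt_ne j], ?_⟩
        ext H
        cases H <;> simp [rk]
      | bot => simp [rk] at hrk
      | v i => simp [rk] at hrk
      | f i => simp [rk] at hrk
      | top => simp [rk] at hrk
    | v i =>
      cases B with
      | f k =>
        refine ⟨Face.e (e1 i k), Face.e (e2 i k), by simp [dia1 i k], ?_⟩
        ext H
        cases H with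
        | e j => simpa [rk] using dia2 i k j
        | bot => simp [rk]
        | v i' => simp [rk]
        | f i' => simp [rk]
        | top => simp [rk]
      | bot => simp [rk] at hrk
      | v i' => simp [rk] at hrk
      | e i' => simp [rk] at hrk
      | top => simp [rk] at hrk
    | e j =>
      cases B with
      | top =>
        refine ⟨Face.f (ft j false), Face.f (ft j true), by simp [ft_ne j], ?_⟩
        ext H
        cases H <;> simp [rk]
      | bot => simp [rk] at hrk
      | v i' => simp [rk] at hrk
      | e i' => simp [rk] at hrk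
      | f i' => simp [rk] at hrk
    | f k => cases B <;> simp [rk] at hrk
    | top => cases B <;> simp [rk] at hrk
  flagConnected := by
    intro Φ Ψ
    obtain ⟨x, rfl⟩ := exists_mk Φ
    obtain ⟨y, rfl⟩ := exists_mk Ψ
    refine Relation.ReflTransGen.lift mk ?_ _ _ (path x y)
    rintro a b ⟨hab, ha, hb⟩
    exact ⟨adj_differ hab, good_sub ha, good_sub hb⟩

/-! ### The example is equivelar of type `{10, 10}` -/

def pv (k i : Fin 10) : Fin 10 := Fin.ofNat 10 (tab 827499003418893394799640334160310827537227240926256179451688399760331233208050328019106746046600805397770339299955787280 4 (10 * k.val + i.val))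
def pe (k i : Fin 10) : Fin 50 := Fin.ofNat 50 (tab 1050794014068740448161407671159620197706179051236876942576670388606103308341035164351921271457790651751521719045495675315096296571769521587563025153468089861198641161880683387621824 6 (10 * k.val + i.val))
def qe (k i : Fin 10) : Fin 50 := Fin.ofNat 50 (tab 2560706762767069297711570218943924463274531919586011191976423800992063647658138724672840221310356231136645166908427276077871407695790663555551446819503809244161269300324776987603008 6 (10 * k.val + i.val))
def qf (k i : Fin 10) : Fin 10 := Fin.ofNat 10 (tab 368823414185021100494043994359365405570550132304479050164080030861184908104796287283705556148447899583199277090864530720 4 (10 * k.val + i.val))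

theorem pv_inj : ∀ k i j : Fin 10, pv k i = pv k j ↔ i = j := by decide +kernel
theorem pe_inj : ∀ k i j : Fin 10, pe k i = pe k j ↔ i = j := by decide +kernel
theorem qe_inj : ∀ k i j : Fin 10, qe k i = qe k j ↔ i = j := by decide +kernel
theorem qf_inj : ∀ k i j : Fin 10, qf k i = qf k j ↔ i = j := by decide +kernel
theorem pve : ∀ k i j : Fin 10,
    (pv k i = vt (pe k j) false ∨ pv k i = vt (pe k j) true) ↔ (i = j ∨ i = j + 1) := by
  decide +kernel
theorem qef : ∀ k i j : Fin 10,
    (qf k j = ft (qe k i) false ∨ qf k j = ft (qe k i) true) ↔ (i = j ∨ i = j + 1) := by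
  decide +kernel
theorem pef : ∀ k j : Fin 10, (k = ft (pe k j) false ∨ k = ft (pe k j) true) := by
  decide +kernel
theorem qve : ∀ k j : Fin 10, (k = vt (qe k j) false ∨ k = vt (qe k j) true) := by
  decide +kernel
theorem pv_surj : ∀ k i' : Fin 10, ∃ i, pv k i = i' := by decide +kernel
theorem qf_surj : ∀ k i' : Fin 10, ∃ i, qf k i = i' := by decide +kernel
theorem pe_surj : ∀ (k : Fin 10) (j : Fin 50), (k = ft j false ∨ k = ft j true) →
    ∃ i, pe k i = j := by decide +kernel
theorem qe_surj : ∀ (k : Fin 10) (j : Fin 50), (k = vt j false ∨ k = vt j true) →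
    ∃ i, qe k i = j := by decide +kernel

/-- The 10-gon below the 2-face `k`. -/
def polyMap (k : Fin 10) : PolygonFace 10 → Face
  | .bot => Face.bot
  | .vertex i => Face.v (pv k i)
  | .side i => Face.e (pe k i)
  | .top => Face.f k

theorem polyMap_le (k : Fin 10) (a b : PolygonFace 10) : polyMap k a ≤ polyMap k b ↔ a ≤ b := by
  cases a with
  | bot => exact iff_of_true (bot_le' _) trivial
  | top =>
    cases b with
    | top => exact iff_of_true le_rfl le_rfl
    | bot => exact iff_of_false (f_bot _) (fun h => h)
    | vertex i => exact iff_of_false (fv _ _) (fun h => h)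
    | side i => exact iff_of_false (fe _ _) (fun h => h)
  | vertex i =>
    cases b with
    | top => exact iff_of_true (vf _ _) trivial
    | bot => exact iff_of_false (v_bot _) (fun h => h)
    | vertex j => exact pv_inj k i j
    | side j => exact pve k i j
  | side i =>
    cases b with
    | top => exact iff_of_true (pef k i) trivial
    | bot => exact iff_of_false (e_bot _) (fun h => h)
    | vertex j => exact iff_of_false (ev _ _) (fun h => h)
    | side j => exact pe_inj k i j

theorem polyMap_mem (k : Fin 10) (a : PolygonFace 10) : polyMap k a ∈ Set.Iic (Face.f k) :=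
  (polyMap_le k a .top).2 (by cases a <;> trivial)

theorem face_polygon (k : Fin 10) : Nonempty (Set.Iic (Face.f k) ≃o PolygonFace 10) := by
  let g : PolygonFace 10 ↪o Set.Iic (Face.f k) :=
    OrderEmbedding.ofMapLEIff (fun a => ⟨polyMap k a, polyMap_mem k a⟩)
      (fun a b => polyMap_le k a b)
  have hs : Function.Surjective g := by
    rintro ⟨y, hy⟩
    have hy' : y ≤ Face.f k := hy
    cases y with
    | bot => exact ⟨.bot, rfl⟩
    | top => exact absurd hy' (top_f k)
    | v i =>
      obtain ⟨i', h⟩ := pv_surj k i
      exact ⟨.vertex i', Subtype.ext (congrArg Face.v h)⟩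
    | e j =>
      obtain ⟨i', h⟩ := pe_surj k j hy'
      exact ⟨.side i', Subtype.ext (congrArg Face.e h)⟩
    | f k' =>
      have : k' = k := hy'
      subst this
      exact ⟨.top, rfl⟩
  exact ⟨(RelIso.ofSurjective g hs).symm⟩

/-- The 10-gon above the vertex `k`. -/
def figMap (k : Fin 10) : PolygonFace 10 → Face
  | .bot => Face.v k
  | .vertex i => Face.e (qe k i)
  | .side i => Face.f (qf k i)
  | .top => Face.top

theorem figMap_le (k : Fin 10) (a b : PolygonFace 10) : figMap k a ≤ figMap k b ↔ a ≤ b := by
  cases a with
  | bot =>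
    cases b with
    | top => exact iff_of_true (le_top' _) trivial
    | bot => exact iff_of_true le_rfl le_rfl
    | vertex i => exact iff_of_true (qve k i) trivial
    | side i => exact iff_of_true (vf _ _) trivial
  | top =>
    cases b with
    | top => exact iff_of_true le_rfl le_rfl
    | bot => exact iff_of_false (top_v _) (fun h => h)
    | vertex i => exact iff_of_false (top_e _) (fun h => h)
    | side i => exact iff_of_false (top_f _) (fun h => h)
  | vertex i =>
    cases b with
    | top => exact iff_of_true (le_top' _) trivial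
    | bot => exact iff_of_false (ev _ _) (fun h => h)
    | vertex j => exact qe_inj k i j
    | side j => exact qef k i j
  | side i =>
    cases b with
    | top => exact iff_of_true (le_top' _) trivial
    | bot => exact iff_of_false (fv _ _) (fun h => h)
    | vertex j => exact iff_of_false (fe _ _) (fun h => h)
    | side j => exact qf_inj k i j

theorem figMap_mem (k : Fin 10) (a : PolygonFace 10) : figMap k a ∈ Set.Ici (Face.v k) :=
  (figMap_le k .bot a).2 (by cases a <;> trivial)

theorem vertex_polygon (k : Fin 10) : Nonempty (Set.Ici (Face.v k) ≃o PolygonFace 10) := by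
  let g : PolygonFace 10 ↪o Set.Ici (Face.v k) :=
    OrderEmbedding.ofMapLEIff (fun a => ⟨figMap k a, figMap_mem k a⟩)
      (fun a b => figMap_le k a b)
  have hs : Function.Surjective g := by
    rintro ⟨y, hy⟩
    have hy' : Face.v k ≤ y := hy
    cases y with
    | top => exact ⟨.top, rfl⟩
    | bot => exact absurd hy' (v_bot k)
    | f i =>
      obtain ⟨i', h⟩ := qf_surj k i
      exact ⟨.side i', Subtype.ext (congrArg Face.f h)⟩
    | e j =>
      obtain ⟨i', h⟩ := qe_surj k j hy'
      exact ⟨.vertex i', Subtype.ext (congrArg Face.e h)⟩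
    | v k' =>
      have : k = k' := hy'
      subst this
      exact ⟨.bot, rfl⟩
  exact ⟨(RelIso.ofSurjective g hs).symm⟩

theorem example_equivelar : IsEquivelar rk 10 10 := by
  constructor
  · intro A hA
    cases A with
    | f k => exact face_polygon k
    | bot => simp [rk] at hA
    | v i => simp [rk] at hA
    | e i => simp [rk] at hA
    | top => simp [rk] at hA
  · intro A hA
    cases A with
    | v k => exact vertex_polygon k
    | bot => simp [rk] at hA
    | f i => simp [rk] at hA
    | e i => simp [rk] at hA
    | top => simp [rk] at hA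

/-! ### The example is fully transitive -/

/-- The map of the faces given by maps of the vertices, edges and 2-faces. -/
def fmap (a : Fin 10 → Fin 10) (b : Fin 50 → Fin 50) (c : Fin 10 → Fin 10) : Face → Face
  | .bot => .bot
  | .v i => .v (a i)
  | .e j => .e (b j)
  | .f k => .f (c k)
  | .top => .top

theorem fmap_mono {a : Fin 10 → Fin 10} {b : Fin 50 → Fin 50} {c : Fin 10 → Fin 10}
    (h1 : ∀ j, (a (vt j false) = vt (b j) false ∨ a (vt j false) = vt (b j) true) ∧
      (a (vt j true) = vt (b j) false ∨ a (vt j true) = vt (b j) true))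
    (h2 : ∀ j, (c (ft j false) = ft (b j) false ∨ c (ft j false) = ft (b j) true) ∧
      (c (ft j true) = ft (b j) false ∨ c (ft j true) = ft (b j) true))
    (x y : Face) (h : x ≤ y) : fmap a b c x ≤ fmap a b c y := by
  cases x with
  | bot => exact bot_le' _
  | top => cases y with
    | top => exact le_rfl
    | bot => exact absurd h top_bot
    | v i => exact absurd h (top_v i)
    | e i => exact absurd h (top_e i)
    | f i => exact absurd h (top_f i)
  | v i => cases y with
    | top => exact le_top' _
    | bot => exact absurd h (v_bot i)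
    | v j => have : i = j := h
             subst this; exact le_rfl
    | e j =>
      have : i = vt j false ∨ i = vt j true := h
      rcases this with rfl | rfl
      · exact (h1 j).1
      · exact (h1 j).2
    | f k => exact vf _ _
  | e i => cases y with
    | top => exact le_top' _
    | bot => exact absurd h (e_bot i)
    | v j => exact absurd h (ev i j)
    | e j => have : i = j := h
             subst this; exact le_rfl
    | f k =>
      have : k = ft i false ∨ k = ft i true := h
      rcases this with rfl | rfl
      · exact (h2 i).1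
      · exact (h2 i).2
  | f i => cases y with
    | top => exact le_top' _
    | bot => exact absurd h (f_bot i)
    | v j => exact absurd h (fv i j)
    | e j => exact absurd h (fe i j)
    | f j => have : i = j := h
             subst this; exact le_rfl

def aV (i : Fin 10) : Fin 10 := Fin.ofNat 10 (tab 645729042720 4 i.val)
def aE (i : Fin 50) : Fin 50 := Fin.ofNat 50 (tab 1552492909260534343451965495653104536373862857365440749579789033333213835471362328013320193 6 i.val)
def aF (i : Fin 10) : Fin 10 := Fin.ofNat 10 (tab 590360236320 4 i.val)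
def aV' (i : Fin 10) : Fin 10 := Fin.ofNat 10 (tab 645729042720 4 i.val)
def aE' (i : Fin 50) : Fin 50 := Fin.ofNat 50 (tab 1552492909260534343451965495653104536373862857365440749579789033333213835471362328013320193 6 i.val)
def aF' (i : Fin 10) : Fin 10 := Fin.ofNat 10 (tab 590360236320 4 i.val)
def bV (i : Fin 10) : Fin 10 := Fin.ofNat 10 (tab 431931885315 4 i.val)
def bE (i : Fin 50) : Fin 50 := Fin.ofNat 50 (tab 613957863054530923017935427182574567917196392018132236278864693847714076940644245957026178 6 i.val)
def bF (i : Fin 10) : Fin 10 := Fin.ofNat 10 (tab 429538247985 4 i.val)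
def bV' (i : Fin 10) : Fin 10 := Fin.ofNat 10 (tab 494613824865 4 i.val)
def bE' (i : Fin 50) : Fin 50 := Fin.ofNat 50 (tab 1226714370257155634582444599674395221448612263424355389620805934961124709368399934300096199 6 i.val)
def bF' (i : Fin 10) : Fin 10 := Fin.ofNat 10 (tab 289258608135 4 i.val)

/-- The first automorphism. -/
def autA : Face ≃o Face where
  toFun := fmap aV aE aF
  invFun := fmap aV' aE' aF'
  left_inv := by
    intro x
    cases x with
    | bot => rfl
    | top => rfl
    | v i => exact congrArg Face.v ((by decide +kernel : ∀ i, aV' (aV i) = i) i)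
    | e i => exact congrArg Face.e ((by decide +kernel : ∀ i, aE' (aE i) = i) i)
    | f i => exact congrArg Face.f ((by decide +kernel : ∀ i, aF' (aF i) = i) i)
  right_inv := by
    intro x
    cases x with
    | bot => rfl
    | top => rfl
    | v i => exact congrArg Face.v ((by decide +kernel : ∀ i, aV (aV' i) = i) i)
    | e i => exact congrArg Face.e ((by decide +kernel : ∀ i, aE (aE' i) = i) i)
    | f i => exact congrArg Face.f ((by decide +kernel : ∀ i, aF (aF' i) = i) i)
  map_rel_iff' := by
    intro x y
    constructor
    · intro h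
      have := fmap_mono (a := aV') (b := aE') (c := aF') (by decide +kernel) (by decide +kernel)
        _ _ h
      have e : ∀ x, fmap aV' aE' aF' (fmap aV aE aF x) = x := by
        intro x
        cases x with
        | bot => rfl
        | top => rfl
        | v i => exact congrArg Face.v ((by decide +kernel : ∀ i, aV' (aV i) = i) i)
        | e i => exact congrArg Face.e ((by decide +kernel : ∀ i, aE' (aE i) = i) i)
        | f i => exact congrArg Face.f ((by decide +kernel : ∀ i, aF' (aF i) = i) i)
      simpa [e] using this
    · exact fmap_mono (by decide +kernel) (by decide +kernel) x y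

/-- The second automorphism. -/
def autB : Face ≃o Face where
  toFun := fmap bV bE bF
  invFun := fmap bV' bE' bF'
  left_inv := by
    intro x
    cases x with
    | bot => rfl
    | top => rfl
    | v i => exact congrArg Face.v ((by decide +kernel : ∀ i, bV' (bV i) = i) i)
    | e i => exact congrArg Face.e ((by decide +kernel : ∀ i, bE' (bE i) = i) i)
    | f i => exact congrArg Face.f ((by decide +kernel : ∀ i, bF' (bF i) = i) i)
  right_inv := by
    intro x
    cases x with
    | bot => rfl
    | top => rfl
    | v i => exact congrArg Face.v ((by decide +kernel : ∀ i, bV (bV' i) = i) i)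
    | e i => exact congrArg Face.e ((by decide +kernel : ∀ i, bE (bE' i) = i) i)
    | f i => exact congrArg Face.f ((by decide +kernel : ∀ i, bF (bF' i) = i) i)
  map_rel_iff' := by
    intro x y
    constructor
    · intro h
      have := fmap_mono (a := bV') (b := bE') (c := bF') (by decide +kernel) (by decide +kernel)
        _ _ h
      have e : ∀ x, fmap bV' bE' bF' (fmap bV bE bF x) = x := by
        intro x
        cases x with
        | bot => rfl
        | top => rfl
        | v i => exact congrArg Face.v ((by decide +kernel : ∀ i, bV' (bV i) = i) i)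
        | e i => exact congrArg Face.e ((by decide +kernel : ∀ i, bE' (bE i) = i) i)
        | f i => exact congrArg Face.f ((by decide +kernel : ∀ i, bF' (bF i) = i) i)
      simpa [e] using this
    · exact fmap_mono (by decide +kernel) (by decide +kernel) x y

/-- Apply `autA` and `autB` in the order given by the base-4 digits of `w` (digit 3 stops). -/
def walk : ℕ → ℕ → Face → Face
  | 0, _, x => x
  | n + 1, w, x => bif w % 4 == 3 then x else
      walk n (w / 4) (bif w % 4 == 0 then fmap aV aE aF x else fmap bV bE bF x)

theorem walk_aut (n : ℕ) : ∀ (w : ℕ) (x : Face), ∃ α : Face ≃o Face, α x = walk n w x := by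
  induction n with
  | zero => intro w x; exact ⟨OrderIso.refl _, rfl⟩
  | succ n ih =>
    intro w x
    simp only [walk]
    cases (w % 4 == 3)
    · simp only [cond_false]
      cases (w % 4 == 0)
      · obtain ⟨α, hα⟩ := ih (w / 4) (fmap bV bE bF x)
        exact ⟨autB.trans α, hα⟩
      · obtain ⟨α, hα⟩ := ih (w / 4) (fmap aV aE aF x)
        exact ⟨autA.trans α, hα⟩
    · exact ⟨OrderIso.refl _, rfl⟩

theorem walk_v : ∀ i : Fin 10, walk 16 (tab 74596010728126349860326062579527488598276636675 16 i.val) (Face.v 0) = Face.v i := by
  decide +kernel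
theorem walk_f : ∀ i : Fin 10, walk 16 (tab 17595360446193341186829409575187003113026158595 16 i.val) (Face.f 0) = Face.f i := by
  decide +kernel
theorem walk_e : ∀ i : Fin 50, walk 16 (tab 2261296009213020574944515764971619650572664276880667093056798006602449119371472743925704430715674069616630692529797390161065147147062682237257426632066013603420868352480143190717772916169843394131267142979636257293878007656648670085187721913649304530179921022850945562525384005834266521321851171835176682225305966232583210080771906428229910436999482880155966649118182159428782522604701587019907574040445451354354005648809232655898112181169972048328805534256432951682897314578435 32 i.val) (Face.e 0) = Face.e i := by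
  decide +kernel

theorem reach_v (i : Fin 10) : ∃ α : Face ≃o Face, α (Face.v 0) = Face.v i := by
  obtain ⟨α, h⟩ := walk_aut 16 _ (Face.v 0)
  exact ⟨α, h.trans (walk_v i)⟩

theorem reach_e (i : Fin 50) : ∃ α : Face ≃o Face, α (Face.e 0) = Face.e i := by
  obtain ⟨α, h⟩ := walk_aut 16 _ (Face.e 0)
  exact ⟨α, h.trans (walk_e i)⟩

theorem reach_f (i : Fin 10) : ∃ α : Face ≃o Face, α (Face.f 0) = Face.f i := by
  obtain ⟨α, h⟩ := walk_aut 16 _ (Face.f 0)
  exact ⟨α, h.trans (walk_f i)⟩

theorem trans_of_base (x₀ x y : Face) (hx : ∃ α : Face ≃o Face, α x₀ = x)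
    (hy : ∃ α : Face ≃o Face, α x₀ = y) : ∃ α : Face ≃o Face, α x = y := by
  obtain ⟨α, rfl⟩ := hx
  obtain ⟨β, rfl⟩ := hy
  exact ⟨α.symm.trans β, by simp⟩

theorem example_fullyTransitive : IsFullyTransitive rk := by
  intro x y h
  cases x with
  | bot => cases y <;> simp [rk] at h
           exact ⟨OrderIso.refl _, rfl⟩
  | top => cases y <;> simp [rk] at h
           exact ⟨OrderIso.refl _, rfl⟩
  | v i => cases y <;> simp [rk] at h
           exact trans_of_base (Face.v 0) _ _ (reach_v i) (reach_v _)
  | e i => cases y <;> simp [rk] at h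
           exact trans_of_base (Face.e 0) _ _ (reach_e i) (reach_e _)
  | f i => cases y <;> simp [rk] at h
           exact trans_of_base (Face.f 0) _ _ (reach_f i) (reach_f _)

/-! ### The example is self-dual -/

def dV (i : Fin 10) : Fin 10 := Fin.ofNat 10 (tab 645658060560 4 i.val)
def dE (i : Fin 50) : Fin 50 := Fin.ofNat 50 (tab 1518652100659799499060222619903385704244689783354913201696701183031684910663661821513437632 6 i.val)
def dF (i : Fin 10) : Fin 10 := Fin.ofNat 10 (tab 581318157825 4 i.val)
def dV' (i : Fin 10) : Fin 10 := Fin.ofNat 10 (tab 636334002960 4 i.val)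
def dE' (i : Fin 50) : Fin 50 := Fin.ofNat 50 (tab 1098973469207209904437222753132438073549175347715627042222015965371787106451276436663189632 6 i.val)
def dF' (i : Fin 10) : Fin 10 := Fin.ofNat 10 (tab 453160289025 4 i.val)

def dmap (a : Fin 10 → Fin 10) (b : Fin 50 → Fin 50) (c : Fin 10 → Fin 10) : Face → Face
  | .bot => .top
  | .v i => .f (a i)
  | .e j => .e (b j)
  | .f k => .v (c k)
  | .top => .bot

/-- A duality of the example. -/
def dual : Equiv.Perm Face where
  toFun := dmap dV dE dF
  invFun := dmap dF' dE' dV'
  left_inv := by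
    intro x
    cases x with
    | bot => rfl
    | top => rfl
    | v i => exact congrArg Face.v ((by decide +kernel : ∀ i, dV' (dV i) = i) i)
    | e i => exact congrArg Face.e ((by decide +kernel : ∀ i, dE' (dE i) = i) i)
    | f i => exact congrArg Face.f ((by decide +kernel : ∀ i, dF' (dF i) = i) i)
  right_inv := by
    intro x
    cases x with
    | bot => rfl
    | top => rfl
    | v i => exact congrArg Face.v ((by decide +kernel : ∀ i, dF (dF' i) = i) i)
    | e i => exact congrArg Face.e ((by decide +kernel : ∀ i, dE (dE' i) = i) i)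
    | f i => exact congrArg Face.f ((by decide +kernel : ∀ i, dV (dV' i) = i) i)

theorem dual_ve : ∀ (i : Fin 10) (j : Fin 50), (i = vt j false ∨ i = vt j true) ↔
    (dV i = ft (dE j) false ∨ dV i = ft (dE j) true) := by decide +kernel
theorem dual_ef : ∀ (i : Fin 10) (j : Fin 50), (i = ft j false ∨ i = ft j true) ↔
    (dF i = vt (dE j) false ∨ dF i = vt (dE j) true) := by decide +kernel
theorem dV_inj : ∀ (i j : Fin 10), i = j ↔ dV j = dV i := by decide +kernel
theorem dF_inj : ∀ (i j : Fin 10), i = j ↔ dF j = dF i := by decide +kernel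
theorem dE_inj : ∀ (i j : Fin 50), i = j ↔ dE j = dE i := by decide +kernel

theorem example_selfDual : IsDuality dual := by
  intro x y
  cases x with
  | bot => exact iff_of_true (bot_le' _) (le_top' _)
  | top => cases y with
    | top => exact iff_of_true le_rfl le_rfl
    | bot => exact iff_of_false top_bot top_bot
    | v i => exact iff_of_false (top_v i) (f_bot _)
    | e i => exact iff_of_false (top_e i) (e_bot _)
    | f i => exact iff_of_false (top_f i) (v_bot _)
  | v i => cases y with
    | top => exact iff_of_true (le_top' _) (bot_le' _)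
    | bot => exact iff_of_false (v_bot _) (top_f _)
    | v j => exact dV_inj i j
    | e j => exact dual_ve i j
    | f j => exact iff_of_true (vf _ _) (vf _ _)
  | e i => cases y with
    | top => exact iff_of_true (le_top' _) (bot_le' _)
    | bot => exact iff_of_false (e_bot _) (top_e _)
    | v j => exact iff_of_false (ev _ _) (fe _ _)
    | e j => exact dE_inj i j
    | f j => exact dual_ef j i
  | f i => cases y with
    | top => exact iff_of_true (le_top' _) (bot_le' _)
    | bot => exact iff_of_false (f_bot _) (top_v _)
    | v j => exact iff_of_false (fv _ _) (fv _ _)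
    | e j => exact iff_of_false (fe _ _) (ev _ _)
    | f j => exact dF_inj i j

/-! ### The example has no polarity -/

section NoPolarity

variable {δ : Equiv.Perm Face}

theorem duality_lt (hd : IsDuality δ) {x y : Face} (h : x < y) : δ y < δ x := by
  refine lt_of_le_of_ne ((hd x y).1 h.le) ?_
  intro he
  exact h.ne (δ.injective he).symm

theorem duality_rk (hd : IsDuality δ) (z : Fl) :
    rk (δ (Face.v (V z))) = 2 ∧ rk (δ (Face.e (E z))) = 1 ∧ rk (δ (Face.f (F z))) = 0 := by
  have h1 : Face.bot < Face.v (V z) := lt_of_le_of_ne (bot_le' _) (by simp)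
  have h2 : Face.v (V z) < Face.e (E z) := lt_of_le_of_ne (V_inc z) (by simp)
  have h3 : Face.e (E z) < Face.f (F z) := lt_of_le_of_ne (F_inc z) (by simp)
  have h4 : Face.f (F z) < Face.top := lt_of_le_of_ne (le_top' _) (by simp)
  have g1 := rk_strictMono (duality_lt hd h1)
  have g2 := rk_strictMono (duality_lt hd h2)
  have g3 := rk_strictMono (duality_lt hd h3)
  have g4 := rk_strictMono (duality_lt hd h4)
  have b1 : ∀ x : Face, -1 ≤ rk x ∧ rk x ≤ 3 := by intro x; cases x <;> simp [rk]
  have b2 := b1 (δ Face.bot)
  have b3 := b1 (δ Face.top)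
  omega

/-- The duality `δ` maps the flag `z` to the flag `y`. -/
def Rel (δ : Equiv.Perm Face) (z y : Fl) : Prop :=
  δ (Face.v (V z)) = Face.f (F y) ∧ δ (Face.e (E z)) = Face.e (E y) ∧
    δ (Face.f (F z)) = Face.v (V y)

theorem rel_exists (hd : IsDuality δ) (z : Fl) : ∃ y, Rel δ z y := by
  obtain ⟨h1, h2, h3⟩ := duality_rk hd z
  obtain ⟨k, hk⟩ : ∃ k, δ (Face.v (V z)) = Face.f k := by
    cases h : δ (Face.v (V z)) <;> rw [h] at h1 <;> simp [rk] at h1 ⊢
  obtain ⟨j, hj⟩ : ∃ j, δ (Face.e (E z)) = Face.e j := by
    cases h : δ (Face.e (E z)) <;> rw [h] at h2 <;> simp [rk] at h2 ⊢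
  obtain ⟨i, hi⟩ : ∃ i, δ (Face.f (F z)) = Face.v i := by
    cases h : δ (Face.f (F z)) <;> rw [h] at h3 <;> simp [rk] at h3 ⊢
  have e1 := (hd _ _).1 (V_inc z)
  have e2 := (hd _ _).1 (F_inc z)
  rw [hk, hj, ef] at e1
  rw [hj, hi, ve] at e2
  obtain ⟨b, hb⟩ : ∃ b, i = vt j b := by
    rcases e2 with h | h
    · exact ⟨false, h⟩
    · exact ⟨true, h⟩
  obtain ⟨c, hc⟩ : ∃ c, k = ft j c := by
    rcases e1 with h | h
    · exact ⟨false, h⟩
    · exact ⟨true, h⟩
  obtain ⟨y, y0, y1, y2⟩ := ex_flag j b c
  exact ⟨y, by rw [hk, y2, hc], by rw [hj, y1], by rw [hi, y0, hb]⟩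

theorem rel_unique {z y y' : Fl} (h : Rel δ z y) (h' : Rel δ z y') : y = y' := by
  have a := h.1.symm.trans h'.1
  have b := h.2.1.symm.trans h'.2.1
  have c := h.2.2.symm.trans h'.2.2
  simp only [Face.f.injEq, Face.e.injEq, Face.v.injEq] at a b c
  exact flag_inj y y' c b a

theorem rel_r0 (hd : IsDuality δ) {z y : Fl} (h : Rel δ z y) : Rel δ (r0 z) (r2 y) := by
  obtain ⟨y', h'⟩ := rel_exists hd (r0 z)
  obtain ⟨a1, a2, a3, -⟩ := adj0 z
  have b := h'.2.1
  rw [a2, h.2.1] at b
  have c := h'.2.2
  rw [a3, h.2.2] at c
  simp only [Face.e.injEq, Face.v.injEq] at b c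
  have a : F y ≠ F y' := by
    intro e
    apply a1
    have := h'.1.trans ((congrArg Face.f e.symm).trans h.1.symm)
    have := δ.injective this
    simpa using this
  rw [← (same_E y y' b).1 c a]
  exact h'

theorem rel_r2 (hd : IsDuality δ) {z y : Fl} (h : Rel δ z y) : Rel δ (r2 z) (r0 y) := by
  obtain ⟨y', h'⟩ := rel_exists hd (r2 z)
  obtain ⟨a1, a2, a3, -⟩ := adj2 z
  have b := h'.2.1
  rw [a2, h.2.1] at b
  have c := h'.1
  rw [a1, h.1] at c
  simp only [Face.e.injEq, Face.f.injEq] at b c
  have a : V y ≠ V y' := by
    intro e
    apply a3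
    have := h'.2.2.trans ((congrArg Face.v e.symm).trans h.2.2.symm)
    have := δ.injective this
    simpa using this
  rw [← (same_E y y' b).2.1 a c]
  exact h'

theorem rel_r1 (hd : IsDuality δ) {z y : Fl} (h : Rel δ z y) : Rel δ (r1 z) (r1 y) := by
  obtain ⟨y', h'⟩ := rel_exists hd (r1 z)
  obtain ⟨a1, a2, a3, -⟩ := adj1 z
  have b := h'.1
  rw [a1, h.1] at b
  have c := h'.2.2
  rw [a3, h.2.2] at c
  simp only [Face.f.injEq, Face.v.injEq] at b c
  have a : E y ≠ E y' := by
    intro e
    apply a2
    have := h'.2.1.trans ((congrArg Face.e e.symm).trans h.2.1.symm)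
    have := δ.injective this
    simpa using this
  rcases same_VF y y' c b with e | e
  · exact absurd (congrArg E e) a
  · rw [← e]; exact h'

theorem rel_run (hd : IsDuality δ) (n : ℕ) : ∀ (w : ℕ) (z y : Fl), Rel δ z y →
    Rel δ (run r0 r1 r2 n w z) (run r2 r1 r0 n w y) := by
  induction n with
  | zero => intro _ _ _ h; exact h
  | succ n ih =>
    intro w z y h
    simp only [run]
    cases (w % 4 == 3)
    · simp only [cond_false]
      apply ih
      unfold step
      cases (w % 4 == 0)
      · cases (w % 4 == 1)
        · exact rel_r2 hd h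
        · exact rel_r1 hd h
      · exact rel_r0 hd h
    · exact h

end NoPolarity

theorem example_noPolarity : ¬ ∃ δ : Equiv.Perm Face, IsPolarity δ := by
  rintro ⟨δ, hd, h2⟩
  have hδ : ∀ x, δ (δ x) = x := fun x => by
    have := congrArg (fun g : Equiv.Perm Face => g x) h2
    simpa using this
  obtain ⟨y, hy⟩ := rel_exists hd 0
  have hy' : Rel δ y 0 := by
    refine ⟨?_, ?_, ?_⟩
    · rw [← hy.2.2, hδ]
    · rw [← hy.2.1, hδ]
    · rw [← hy.1, hδ]
  have hr := rel_run hd 16 (word y) 0 y hy
  rw [(word_spec y).1] at hr
  exact (word_spec y).2 (rel_unique hr hy')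

end Pool.Agent.helper14.FTNP
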